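import Pool.Agent.H43.MA.OutB
import Pool.Agent.H43.MA.Main

/-!
# Sums of two distinct odd primes in every short interval, one prime from an arbitrary set

Let `θ > 1/3`, let `M` be the product of the primes `≤ y`, where `K₀ log log x ≤ y ≤ K₁ log log x`, and let `S` be an
ARBITRARY set of at least `x / log ^ A x` primes up to `x`. In EVERY interval of length at least `x ^ θ` between `x` and `2 x`
almost all multiples `N` of `M` are sums of an odd prime of `S` and of a different odd prime, in at least the expected number
of ways, up to the factor `1 - ε`. More generally the same holds for almost all vectors of `k` multiples of `M` in a product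
of `k` short intervals, with a common summand in `S`.

The proof: `Pool/Agent/H43/MA`.
-/

set_option autoImplicit false

open Finset

namespace Pool.Agent.Results.MP_61161c_nt.EveryShortInterval

open Pool.Agent.H43.MA (V RepD ExcD)

/-- the windows `(M g i, M (g i + G i)]`, `M = primorial y`, lie between `x` and `2 x` and have length at least `x ^ θ` -/
def Short {k : ℕ} (θ : ℝ) (x y : ℕ) (g G : Fin k → ℕ) : Prop :=
  ∀ i, x ≤ primorial y * g i ∧ primorial y * (g i + G i) ≤ 2 * x ∧ (x : ℝ) ^ θ ≤ primorial y * G i

/-- **Every short interval.** For all `θ > 1/3`, `k`, `A` and `0 < ε ≤ 1` there is `K₀` such that for every `K₁`, every large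
`x`, every `y` between `K₀ log log x` and `K₁ log log x`, with `M` the product of the primes `≤ y`, all windows
`(M g i, M (g i + G i)]` (`i < k`) between `x` and `2 x` of length at least `x ^ θ` and every set `S` of at least
`x / log ^ A x` primes `≤ x`: for all vectors `m` in the box `1 ≤ m i ≤ G i` with at most `ε ∏ G i` exceptions, there are at
least `(1 - ε) #S / (V y log x) ^ k` odd primes `p` in `S` such that all the numbers `M (g i + m i) - p` are odd primes
different from `p`. -/
theorem result (θ : ℝ) (hθ : 1 / 3 < θ) (k A : ℕ) (ε : ℝ) (hε : 0 < ε) (hε1 : ε ≤ 1) : ∃ K₀ : ℕ, ∀ K₁ : ℕ,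
    ∃ x₀ : ℕ, ∀ x : ℕ, x₀ ≤ x →
    ∀ y : ℕ, K₀ * Real.log (Real.log x) ≤ y → y ≤ K₁ * Real.log (Real.log x) →
    ∀ g G : Fin k → ℕ, Short θ x y g G → ∀ S : Finset ℕ, S ⊆ Icc 1 x → (∀ p ∈ S, p.Prime) →
      (x : ℝ) ≤ S.card * Real.log x ^ A → ((ExcD ε S x y g G).card : ℝ) ≤ ε * ∏ i, (G i : ℝ) :=
  Pool.Agent.H43.MA.Fin.outB Pool.Agent.H43.MA.c_BILX θ hθ k A ε hε hε1

end Pool.Agent.Results.MP_61161c_nt.EveryShortInterval
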