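import Pool.Agent.H13.GG.RESB
import Pool.Agent.H95.GX.Final

/-!
# Goldbach's problem in Granville's model of the primes

Granville's refinement of Cramér's model: independent events `A n` (the number `n` is chosen); the
multiples of the primes `p ≤ z n` are not chosen, `log (z n) ~ log log n`, and the other `n` are chosen
with a probability asymptotic to `∏_{p ≤ z n} (1 - 1/p)⁻¹ / log n`.

Almost surely every large even number `2 h` is a sum of two distinct odd chosen numbers, the number of these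
representations is asymptotic to the prediction of Hardy and Littlewood (also if the two summands are required
to differ by at most `2 U`, `h^κ ≤ U`), and the problem of how close the two summands can be is
reduced to a deterministic question about sieves: with `𝔖` the singular series of `2 h` the nearest
representation `2 h = (h - j) + (h + j)` has `limsup j 𝔖 / (log h)³ = 1 / σ⁻`, where `σ⁻` is a lower
extremal density of a sieve; `σ⁻ < 1 < σ⁺`, so the upper limit is larger than in Cramér's model (a Maier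
phenomenon).  For the critical windows `j ≤ U ~ C (log h)³ / 𝔖` we determine the upper
and the lower limit of the number of the representations divided by `log h`.
-/

set_option autoImplicit false

open MeasureTheory Filter Set ProbabilityTheory
open scoped Topology ENNReal

namespace Pool.Agent.Results.MP_61161c_nt.GranvilleGoldbach

/-- `∏_{p ≤ y} (1 - 1/p)` -/
noncomputable def mertens (y : ℕ) : ℝ := ∏ p ∈ (Finset.Icc 1 y).filter Nat.Prime, (1 - (p : ℝ)⁻¹)

/-- `n` has no prime factor `≤ w` -/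
def Rough (w n : ℕ) : Prop := ∀ p : ℕ, p.Prime → p ∣ n → w < p

/-- Granville's model -/
structure GranvilleModel {Ω : Type} [MeasurableSpace Ω] (P : Measure Ω) (A : ℕ → Set Ω) (z : ℕ → ℕ) : Prop where
  prob : IsProbabilityMeasure P
  meas : ∀ n, MeasurableSet (A n)
  indep : iIndepSet A P
  empty : ∀ n, ¬ Rough (z n) n → A n = ∅
  mono : Monotone z
  level : Tendsto (fun n : ℕ => Real.log (z n) / Real.log (Real.log n)) atTop (𝓝 1)
  density : Tendsto (fun n : ℕ => (P (A n)).toReal * (Real.log n * mertens (z n)))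
    (atTop ⊓ 𝓟 {n : ℕ | Rough (z n) n}) (𝓝 1)

/-- the twin prime constant, the infimum of `∏_{3 ≤ p ≤ v} (1 - 1/(p-1)²)` -/
noncomputable def twinConstant : ℝ :=
  ⨅ v : ℕ, ∏ p ∈ (Finset.Icc 3 v).filter Nat.Prime, (1 - 1 / ((p : ℝ) - 1) ^ 2)

/-- the singular series of the even number `2 h` -/
noncomputable def singularSeries (h : ℕ) : ℝ :=
  2 * twinConstant * ∏ p ∈ h.primeFactors.filter (2 < ·), ((p : ℝ) - 1) / (p - 2)

/-- the number of the representations `2 h = a + b` with members `a < b` of `S` and `b - a ≤ 2 U` -/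
noncomputable def count (S : Set ℕ) (h U : ℕ) : ℕ :=
  Set.ncard {q : ℕ × ℕ | q.1 ∈ S ∧ q.2 ∈ S ∧ q.1 < q.2 ∧ q.1 + q.2 = 2 * h ∧ q.2 ≤ q.1 + 2 * U}

/-- the least `j ≥ 1` such that `h - j` and `h + j` are members of `S` (`0` if there is none) -/
noncomputable def nearest (S : Set ℕ) (h : ℕ) : ℕ := sInf {j : ℕ | 1 ≤ j ∧ j ≤ h ∧ h - j ∈ S ∧ h + j ∈ S}

/-- `∏_{p ≤ w} (1 - ν(p)/p)` with `ν(p) = 1` for `p ∣ 2 t` and `ν(p) = 2` for the other primes -/
noncomputable def sieveProduct (w t : ℕ) : ℝ :=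
  ∏ p ∈ (Finset.Icc 1 w).filter Nat.Prime, (1 - (if p ∣ 2 * t then 1 else 2 : ℝ) / p)

/-- the number of the `j` with `1 ≤ j ≤ U` such that `t - j` and `t + j` have no prime divisor `≤ w` -/
noncomputable def survivors (w t U : ℕ) : ℕ :=
  Set.ncard {j : ℕ | 1 ≤ j ∧ j ≤ U ∧ ∀ p : ℕ, p.Prime → p ≤ w → ¬ (p : ℤ) ∣ (t : ℤ) - j ∧ ¬ (p : ℤ) ∣ (t : ℤ) + j}

/-- the length of the interval: `w³` divided by the singular series of `2 t`, truncated at `w` -/
noncomputable def length (w t : ℕ) : ℕ := ⌈(w : ℝ) ^ 3 * mertens w ^ 2 / sieveProduct w t⌉₊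

/-- the number of the survivors divided by the expected number -/
noncomputable def density (w t : ℕ) : ℝ :=
  (survivors w t (length w t) : ℝ) / (length w t * sieveProduct w t)

/-- the lower extremal density -/
noncomputable def sparsest : ℝ≥0∞ := liminf (fun w : ℕ => ⨅ t : ℕ, ENNReal.ofReal (density w t)) atTop

/-- the upper extremal density -/
noncomputable def densest : ℝ≥0∞ := limsup (fun w : ℕ => ⨆ t : ℕ, ENNReal.ofReal (density w t)) atTop

/-- the largest `u` with `u log (u / l) - u + l ≤ 1`: the threshold for the upper deviations, of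
probability `1 / x`, of a Poisson variable of mean `l log x` -/
noncomputable def upper (l : ℝ) : ℝ := sSup {u : ℝ | 0 ≤ u ∧ u * Real.log (u / l) - u + l ≤ 1}

/-- the smallest `u ≥ 0` with `u log (u / l) - u + l ≤ 1` -/
noncomputable def lower (l : ℝ) : ℝ := sInf {u : ℝ | 0 ≤ u ∧ u * Real.log (u / l) - u + l ≤ 1}

open Pool.Agent.H50.BF Pool.Agent.H50.CW Pool.Agent.H50.GW

lemma mertens_MM (w : ℕ) : mertens w = (MM w)⁻¹ := mert1_MM w

lemma rough_iff (w n : ℕ) : Rough w n ↔ Rou w n := Rou_iff w n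

lemma gmod_iff {Ω : Type} [MeasurableSpace Ω] (P : Measure Ω) (A : ℕ → Set Ω) (z : ℕ → ℕ) :
    GranvilleModel P A z ↔ GMod P A z := by
  have h1 : {n : ℕ | Rough (z n) n} = {n : ℕ | Rou (z n) n} := by
    ext n
    exact rough_iff _ _
  have h2 : (fun n : ℕ => (P (A n)).toReal * (Real.log n * mertens (z n))) =
      fun n : ℕ => (P (A n)).toReal * (Real.log n / MM (z n)) := by
    funext n
    rw [mertens_MM, div_eq_mul_inv]
  constructor
  · intro h
    exact ⟨h.prob, h.meas, h.indep, fun n hn => h.empty n (by rwa [rough_iff]), h.mono, h.level, by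
      have := h.density
      rwa [h1, h2] at this⟩
  · intro h
    refine ⟨h.prob, h.meas, h.indep, fun n hn => h.empty n (by rwa [rough_iff] at hn), h.mono, h.lev, ?_⟩
    have := h.dens
    rw [h1, h2]
    exact this

lemma odd_sum {Ω : Type} [MeasurableSpace Ω] {P : Measure Ω} {A : ℕ → Set Ω} {z : ℕ → ℕ} (hA : GMod P A z) :
    ∀ᵐ ω ∂P, ∀ᶠ h : ℕ in atTop, ∃ a b : ℕ, ω ∈ A a ∧ ω ∈ A b ∧ Odd a ∧ Odd b ∧ a ≠ b ∧ a + b = 2 * h := by
  have hz := CUBx.z_tend hA.lev
  obtain ⟨n0, hn0⟩ := eventually_atTop.1 (hz.eventually_ge_atTop 2)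
  have hodd : ∀ n : ℕ, n0 ≤ n → ∀ ω : Ω, ω ∈ A n → Odd n := by
    intro n hn ω hω
    by_contra hcon
    rw [Nat.not_odd_iff_even] at hcon
    have h1 : ¬ Rou (z n) n := fun hr => hr 2 Nat.prime_two (hn0 n hn) hcon.two_dvd
    rw [hA.empty n h1] at hω
    exact hω
  filter_upwards [Pool.Agent.H13.GG.long Ω P A z hA (1 / 2) (by norm_num)] with ω hω
  filter_upwards [hω (1 / 2) (by norm_num), eventually_ge_atTop (2 * n0 + 16), Pool.Agent.H13.GG.log_ev] with h h1 h2 h3
  have h4 : (16 : ℝ) ≤ h := by exact_mod_cast (by omega : 16 ≤ h)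
  have h5 : (h : ℝ) ^ (1 / 2 : ℝ) ≤ ((h / 2 : ℕ) : ℝ) := by
    have h6 : (h : ℝ) / 4 ≤ ((h / 2 : ℕ) : ℝ) := by
      have : h ≤ 4 * (h / 2) := by omega
      have : (h : ℝ) ≤ 4 * ((h / 2 : ℕ) : ℝ) := by exact_mod_cast this
      linarith
    refine le_trans ?_ h6
    rw [← Real.sqrt_eq_rpow, Real.sqrt_le_left (by positivity)]
    nlinarith
  have h6 := h1 (h / 2) h5 (by omega)
  have h7 : 0 < Pool.Agent.H13.GG.rp {n | ω ∈ A n} h (h / 2) := by
    by_contra hcon
    have h9 : Pool.Agent.H13.GG.rp {n | ω ∈ A n} h (h / 2) = 0 := by omega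
    rw [h9] at h6
    norm_num at h6
  obtain ⟨⟨a, b⟩, g1, g2, g3, g4, g5⟩ := (Set.ncard_pos (Pool.Agent.H13.GG.rp_fin _ h (h / 2))).1 h7
  simp only [Set.mem_ofPred_eq] at g1 g2 g3 g4 g5
  exact ⟨a, b, g1, g2, hodd a (by omega) ω g1, hodd b (by omega) ω g2, by omega, g4⟩

/-- Goldbach's problem in Granville's model. -/
theorem result :
    -- Granville's model exists
    (∃ (Ω : Type) (_ : MeasurableSpace Ω) (P : Measure Ω) (A : ℕ → Set Ω) (z : ℕ → ℕ), GranvilleModel P A z) ∧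
    -- the singular series, the extremal densities of the sieve, and the thresholds
    (∀ h : ℕ, 0 < singularSeries h) ∧ sparsest < 1 ∧ 1 < densest ∧ densest < ⊤ ∧
    (∀ l : ℝ, 0 < l → l ≤ upper l) ∧ (∀ l : ℝ, 1 < l → 0 < lower l) ∧ (∀ l : ℝ, 0 ≤ l → l ≤ 1 → lower l = 0) ∧
    ∀ (Ω : Type) [MeasurableSpace Ω] (P : Measure Ω) (A : ℕ → Set Ω) (z : ℕ → ℕ), GranvilleModel P A z →
      -- every large even number is a sum of two distinct odd chosen numbers
      (∀ᵐ ω ∂P, ∀ᶠ h : ℕ in atTop, ∃ a b : ℕ, ω ∈ A a ∧ ω ∈ A b ∧ Odd a ∧ Odd b ∧ a ≠ b ∧ a + b = 2 * h) ∧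
      -- the number of the representations
      (∀ κ : ℝ, 0 < κ → ∀ᵐ ω ∂P, ∀ ε : ℝ, 0 < ε → ∀ᶠ h : ℕ in atTop, ∀ U : ℕ, (h : ℝ) ^ κ ≤ U → U < h →
        |(count {n | ω ∈ A n} h U : ℝ) / (singularSeries h * U / Real.log h ^ 2) - 1| ≤ ε) ∧
      -- the nearest representation
      (∀ᵐ ω ∂P, limsup (fun h : ℕ => ENNReal.ofReal
        (nearest {n | ω ∈ A n} h * singularSeries h / Real.log h ^ 3)) atTop = sparsest⁻¹) ∧
      -- critical windows
      ∀ C : ℝ, 0 < C → ∀ U : ℕ → ℕ,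
        Tendsto (fun h : ℕ => (U h : ℝ) * singularSeries h / Real.log h ^ 3) atTop (𝓝 C) → ∀ᵐ ω ∂P,
        limsup (fun h : ℕ => ENNReal.ofReal (count {n | ω ∈ A n} h (U h) / Real.log h)) atTop =
          ENNReal.ofReal (upper (C * densest.toReal)) ∧
        liminf (fun h : ℕ => ENNReal.ofReal (count {n | ω ∈ A n} h (U h) / Real.log h)) atTop =
          ENNReal.ofReal (lower (C * sparsest.toReal)) ∧
        (C * sparsest.toReal < 1 → ∃ᶠ h : ℕ in atTop, count {n | ω ∈ A n} h (U h) = 0) ∧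
        (1 < C * sparsest.toReal → ∀ᶠ h : ℕ in atTop, 0 < count {n | ω ∈ A n} h (U h)) := by
  obtain ⟨h0, h2, hle, hgen⟩ := Pool.Agent.H13.GG.critical
  have hs : sparsest = Pool.Agent.H13.GG.slg := Pool.Agent.H13.GG.liminf_de
  have hd : densest = Pool.Agent.H13.GG.shg := Pool.Agent.H13.GG.limsup_de
  have hrate := rate
  refine ⟨?_, Pool.Agent.H13.GG.sgl'.1, ?_, ?_, ?_, hrate.2.2.2.2.2.2.2, ?_, hrate.2.2.2.2.2.1, ?_⟩
  · obtain ⟨Ω, mΩ, P, A, z, h⟩ := gxm
    exact ⟨Ω, mΩ, P, A, z, (gmod_iff P A z).2 h⟩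
  · rw [hs]; exact Pool.Agent.H95.GX.slg_lt_one
  · rw [hd]; exact Pool.Agent.H95.GX.one_lt_shg
  · rw [hd]; exact h2
  · intro l hl
    exact dn_pos hl
  · intro Ω _ P A z hmod
    have hA := (gmod_iff P A z).1 hmod
    rw [hs, hd]
    exact ⟨odd_sum hA, Pool.Agent.H13.GG.long Ω P A z hA, Pool.Agent.H13.GG.nearest Ω P A z hA, hgen Ω P A z hA⟩

end Pool.Agent.Results.MP_61161c_nt.GranvilleGoldbach
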