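import Pool.Agent.H50.A.GbI

set_option autoImplicit false

/-! # MP_61161c_nt: how often are all prime summands of an even number late?

Write `log_k` for the iterated logarithms, `f(X) = log X (log₂ X)² log₄ X / (log₃ X)²` and `C₂ = 0.6601…` for the
twin prime constant.  Let `A, ε > 0` and `B ≥ 0`.  For all large `X` every interval `(x, x + X]` with
`0 ≤ x ≤ exp ((log X)^A)` contains at least `X exp (-ε log X / (log₂ X)^B)` even integers `N` such that for every
prime `q` with `π(q) ≤ (1 / ((12 + 4 B) C₂) - ε) f(X)` one has `q < N` and `N - q` is composite, with a prime factor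
`p ≤ exp (log X / log₂ X)`. -/

namespace Pool.Agent.Results.MP_61161c_nt.LateSummandsOften

open Filter

/-- the function `log X (log₂ X)² log₄ X / (log₃ X)²` -/
noncomputable def f (X : ℝ) : ℝ :=
  Real.log X * (Real.log (Real.log X)) ^ 2 * Real.log (Real.log (Real.log (Real.log X))) /
    (Real.log (Real.log (Real.log X))) ^ 2

/-- the twin prime constant `∏_{p ≥ 3} (1 - 1 / (p - 1)²)`, as the infimum of its partial products -/
noncomputable def C₂ : ℝ :=
  ⨅ v : ℕ, ∏ p ∈ (Finset.Icc 3 v).filter Nat.Prime, (1 - 1 / ((p : ℝ) - 1) ^ 2)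

theorem result (A B ε : ℝ) (hA : 0 < A) (hB : 0 ≤ B) (hε : 0 < ε) :
    ∃ X₀ : ℝ, ∀ X : ℝ, X₀ ≤ X → ∀ x : ℝ, 0 ≤ x → x ≤ Real.exp ((Real.log X) ^ A) →
      X * Real.exp (-(ε * Real.log X / (Real.log (Real.log X)) ^ B)) ≤
        ({N : ℕ | x < N ∧ (N : ℝ) ≤ x + X ∧ Even N ∧ ∀ q : ℕ, q.Prime →
          (Nat.primeCounting q : ℝ) ≤ (1 / ((12 + 4 * B) * C₂) - ε) * f X →
          q < N ∧ ∃ p : ℕ, p.Prime ∧ (p : ℝ) ≤ Real.exp (Real.log X / Real.log (Real.log X)) ∧
            p ∣ N - q ∧ p < N - q}.ncard : ℝ) := by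
  obtain ⟨X₀, h⟩ := eventually_atTop.1 (Pool.Agent.H50.A.gold_iter 0 A B ε hA hB hε)
  refine ⟨X₀, fun X hX x hx hxA => ?_⟩
  refine (h X hX x hx hxA).trans (le_of_eq ?_)
  congr 2
  ext N
  have e0 : (12 : ℝ) + 4 * ((0 : ℕ) : ℝ) + 4 * B = 12 + 4 * B := by push_cast; ring
  have e1 : Pool.Agent.H50.A.C2 = C₂ := by
    unfold Pool.Agent.H50.A.C2 Pool.Agent.H50.A.twin C₂
    congr 1
  have e2 : Pool.Agent.H50.A.fR X = f X := rfl
  simp only [Set.mem_ofPred_eq, e0, e1, e2, Nat.le_zero, forall_eq, Function.iterate_zero, id,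
    zero_add, Function.iterate_one]

end Pool.Agent.Results.MP_61161c_nt.LateSummandsOften
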