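import Pool.Agent.H37.GB.PAIR
import Pool.Agent.H37.GB.BLK7
import Pool.Agent.H37.GB.FLD7
import Pool.Agent.H37.GB.GLUE
import Pool.Agent.H37.GB.LAW
import Pool.Agent.H37.GB.M4
import Pool.Agent.H37.GB.MU
import Pool.Agent.H37.GB.POS8
import Pool.Agent.H37.GB.SOME7
import Pool.Agent.H37.GB.VA
import Pool.Agent.H37.GB.VQC
import Pool.Agent.H37.GB.WAVE

/-! # Goldbach's conjecture in random models: the exact order of independence is eight

The random set contains the odd number `2 n + 1` if the event `E n` happens. The hypothesis on the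
model is only that the events have the right probabilities `p n` (any `p` with `p → 0` and
`p n ≥ c / log n`, such as the density of the primes among the odd numbers) and are independent up
to a given order. -/

set_option autoImplicit false

namespace Pool.Agent.Results.MP_61161c_nt.OrderEight

open Finset MeasureTheory Filter Topology
open Pool.Agent.H37.GB (mu rep IsDens S_POS8 S_SOME7 pos8 some7 blk7 law fld7 glue2 wave_avg vqc va
  pair_avg m4 mu_low)

/-- The probabilities `p n` of the odd numbers `2 n + 1`: they tend to zero, but not faster than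
`c / log n`. -/
structure Densities (p : ℕ → ℝ) : Prop where
  nonneg : ∀ n, 0 ≤ p n
  le_one : ∀ n, p n ≤ 1
  zero : Tendsto p atTop (𝓝 0)
  low : ∃ c : ℝ, 0 < c ∧ ∀ᶠ n : ℕ in atTop, c / Real.log n ≤ p n

/-- Models of order `κ`: a finite set `T` of indices with `|T| ≤ κ n` for all `n ∈ T` is chosen
(all the events `E n`, `n ∈ T`, happen) with the probability `∏ n ∈ T, p n`. -/
structure Model {Ω : Type} [MeasurableSpace Ω] (P : Measure Ω) (p : ℕ → ℝ) (κ : ℕ → ℕ)
    (E : ℕ → Set Ω) : Prop where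
  meas : ∀ n, MeasurableSet (E n)
  indep : ∀ T : Finset ℕ, (∀ n ∈ T, T.card ≤ κ n) →
    P (⋂ n ∈ T, E n) = ENNReal.ofReal (∏ n ∈ T, p n)

theorem Densities.is {p : ℕ → ℝ} (h : Densities p) : IsDens p := ⟨h.1, h.2, h.3, h.4⟩

theorem Model.is {Ω : Type} [MeasurableSpace Ω] {P : Measure Ω} {p : ℕ → ℝ} {κ : ℕ → ℕ}
    {E : ℕ → Set Ω} (h : Model P p κ E) : Pool.Agent.H37.GB.Model P p κ E := ⟨h.1, h.2⟩

/-- the random set of odd numbers: it contains `2 n + 1` iff the event `E n` happens -/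
def odds {Ω : Type} (E : ℕ → Set Ω) (ω : Ω) : Set ℕ := {a | ∃ n, a = 2 * n + 1 ∧ ω ∈ E n}

/-- `N` is a sum of two distinct elements of `A` -/
def Goldbach (A : Set ℕ) (N : ℕ) : Prop := ∃ a ∈ A, ∃ b ∈ A, a < b ∧ a + b = N

/-- the number of representations of `N` as a sum of two distinct elements of `A` -/
noncomputable def reps (A : Set ℕ) (N : ℕ) : ℕ := {a | a ∈ A ∧ ∃ b ∈ A, a < b ∧ a + b = N}.ncard

/-- the expected number of representations of `2 M + 2`: the sum of `p x * p y` over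
`x + y = M`, `x < y` (that is `(2 x + 1) + (2 y + 1) = 2 M + 2`) -/
noncomputable def expected (p : ℕ → ℝ) (M : ℕ) : ℝ :=
  ∑ x ∈ range (M + 1) with x < M - x, p x * p (M - x)

theorem filt_eq (M : ℕ) : (range (M + 1)).filter (fun x => x < M - x) = range ((M + 1) / 2) := by
  ext x
  simp only [mem_filter, mem_range]
  omega

theorem expected_eq (p : ℕ → ℝ) (M : ℕ) : expected p M = mu p 0 M := by
  unfold expected mu
  rw [filt_eq, range_eq_Ico]

theorem goldbach_iff {Ω : Type} (E : ℕ → Set Ω) (ω : Ω) (M : ℕ) :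
    Goldbach (odds E ω) (2 * M + 2) ↔ ∃ x y, ω ∈ E x ∧ ω ∈ E y ∧ x < y ∧ x + y = M := by
  constructor
  · rintro ⟨a, ⟨x, rfl, hx⟩, b, ⟨y, rfl, hy⟩, hab, hs⟩
    exact ⟨x, y, hx, hy, by omega, by omega⟩
  · rintro ⟨x, y, hx, hy, hxy, hs⟩
    exact ⟨2 * x + 1, ⟨x, rfl, hx⟩, 2 * y + 1, ⟨y, rfl, hy⟩, by omega, by omega⟩

theorem reps_eq {Ω : Type} (E : ℕ → Set Ω) (ω : Ω) (M : ℕ) :
    reps (odds E ω) (2 * M + 2) = rep E ω M := by
  classical
  unfold reps rep
  have e : {a | a ∈ odds E ω ∧ ∃ b ∈ odds E ω, a < b ∧ a + b = 2 * M + 2} =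
      (fun x => 2 * x + 1) ''
        (((range ((M + 1) / 2)).filter (fun x => ω ∈ E x ∧ ω ∈ E (M - x)) : Finset ℕ) : Set ℕ) := by
    ext a
    simp only [Set.mem_ofPred_eq, Set.mem_image, coe_filter, mem_range]
    constructor
    · rintro ⟨⟨x, rfl, hx⟩, b, ⟨y, rfl, hy⟩, hab, hs⟩
      refine ⟨x, ⟨by omega, hx, ?_⟩, rfl⟩
      have : M - x = y := by omega
      rw [this]
      exact hy
    · rintro ⟨x, ⟨h1, hx, hy⟩, rfl⟩
      exact ⟨⟨x, rfl, hx⟩, 2 * (M - x) + 1, ⟨M - x, rfl, hy⟩, by omega, by omega⟩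
  rw [e, Set.ncard_image_of_injective _ (fun a b (h : 2 * a + 1 = 2 * b + 1) => by omega),
    Set.ncard_coe_finset]

theorem rep_pos_iff {Ω : Type} (E : ℕ → Set Ω) (ω : Ω) (M : ℕ) :
    rep E ω M ≠ 0 ↔ Goldbach (odds E ω) (2 * M + 2) := by
  classical
  rw [goldbach_iff]
  unfold rep
  rw [Finset.card_ne_zero]
  constructor
  · rintro ⟨x, hx⟩
    obtain ⟨h1, h2, h3⟩ := mem_filter.1 hx
    rw [mem_range] at h1
    exact ⟨x, M - x, h2, h3, by omega, by omega⟩
  · rintro ⟨x, y, hx, hy, hxy, hs⟩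
    refine ⟨x, mem_filter.2 ⟨mem_range.2 (by omega), hx, ?_⟩⟩
    have : M - x = y := by omega
    rw [this]
    exact hy

/-- the density of the primes among the odd numbers -/
theorem dens_nat : Densities (fun n => if n = 0 then 0 else min 1 (2 / Real.log (2 * n + 1))) := by
  have hlog : ∀ n : ℕ, 0 ≤ Real.log (2 * n + 1) := fun n => Real.log_nonneg (by
    have : (0 : ℝ) ≤ n := Nat.cast_nonneg n
    linarith)
  refine ⟨?_, ?_, ?_, 1, one_pos, ?_⟩
  · intro n

    split_ifs
    · exact le_rfl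
    · exact le_min zero_le_one (div_nonneg (by norm_num) (hlog n))
  · intro n

    split_ifs
    · exact zero_le_one
    · exact min_le_left _ _
  · have ht : Tendsto (fun n : ℕ => 2 / Real.log (2 * (n : ℝ) + 1)) atTop (𝓝 0) := by
      refine Tendsto.div_atTop tendsto_const_nhds ?_
      refine Real.tendsto_log_atTop.comp ?_
      refine tendsto_atTop_add_const_right _ _ ?_
      exact tendsto_natCast_atTop_atTop.const_mul_atTop (by norm_num)
    refine tendsto_of_tendsto_of_tendsto_of_le_of_le tendsto_const_nhds ht ?_ ?_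
    · intro n
      beta_reduce
      split_ifs
      · exact le_rfl
      · exact le_min zero_le_one (div_nonneg (by norm_num) (hlog n))
    · intro n
      beta_reduce
      split_ifs
      · exact div_nonneg (by norm_num) (hlog n)
      · exact min_le_right _ _
  · filter_upwards [eventually_ge_atTop 3] with n hn
    have hn3 : (3 : ℝ) ≤ n := by exact_mod_cast hn
    have h1 : 1 ≤ Real.log n := by
      rw [Real.le_log_iff_exp_le (by linarith)]
      linarith [Real.exp_one_lt_d9]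
    have h2 : Real.log (2 * n + 1) ≤ 2 * Real.log n := by
      rw [show 2 * Real.log n = Real.log ((n : ℝ) ^ 2) by rw [Real.log_pow]; norm_num]
      exact Real.log_le_log (by linarith) (by nlinarith)
    have h3 : 0 < Real.log (2 * n + 1) := Real.log_pos (by linarith)
    rw [if_neg (by omega : ¬ n = 0)]
    refine le_min ?_ ?_
    · rw [div_le_one (by linarith)]
      exact h1
    · rw [div_le_div_iff₀ (by linarith) h3]
      linarith

theorem le_of_not {κ : ℕ → ℕ} (hκ : Monotone κ) {k : ℕ} (h : ¬ ∀ᶠ n : ℕ in atTop, k + 1 ≤ κ n) :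
    ∀ n, κ n ≤ k := by
  intro n
  by_contra hn
  refine h ?_
  filter_upwards [eventually_ge_atTop n] with m hm
  have := hκ hm
  omega

theorem model_of {Ω : Type} [MeasurableSpace Ω] {P : Measure Ω} {p : ℕ → ℝ} {κ : ℕ → ℕ}
    {E : ℕ → Set Ω} {k : ℕ} (hk : ∀ n, κ n ≤ k) (hm : ∀ n, MeasurableSet (E n))
    (hi : ∀ T : Finset ℕ, T.card ≤ k → P (⋂ n ∈ T, E n) = ENNReal.ofReal (∏ n ∈ T, p n)) :
    Model P p κ E := by
  refine ⟨hm, fun T hT => hi T ?_⟩
  rcases T.eq_empty_or_nonempty with rfl | ⟨n, hn⟩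
  · simp
  · exact (hT n hn).trans (hk n)

/-- **The exact order of independence for Goldbach's conjecture is eight.** -/
theorem result :
    Densities (fun n => if n = 0 then 0 else min 1 (2 / Real.log (2 * n + 1))) ∧
    ∀ p : ℕ → ℝ, Densities p → ∀ κ : ℕ → ℕ, Monotone κ →
      -- order 8: every large even number, with the expected number of representations
      ((∀ᶠ n : ℕ in atTop, 8 ≤ κ n) → ∀ (Ω : Type) [MeasurableSpace Ω] (P : Measure Ω)
        [IsProbabilityMeasure P] (E : ℕ → Set Ω), Model P p κ E → ∀ᵐ ω ∂P,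
          (∀ᶠ M : ℕ in atTop, Goldbach (odds E ω) (2 * M + 2)) ∧
          Tendsto (fun M : ℕ => (reps (odds E ω) (2 * M + 2) : ℝ) / expected p M) atTop (𝓝 1)) ∧
      -- order 7 is not enough
      ((¬ ∀ᶠ n : ℕ in atTop, 8 ≤ κ n) → ∃ (Ω : Type) (_ : MeasurableSpace Ω) (P : Measure Ω)
        (_ : IsProbabilityMeasure P) (E : ℕ → Set Ω), Model P p κ E ∧ ∀ᵐ ω ∂P,
          ∃ᶠ M : ℕ in atTop, ¬ Goldbach (odds E ω) (2 * M + 2)) := by
  have hp8 : S_POS8 := pos8 m4 mu_low
  have hs7 : S_SOME7 := some7 (blk7 law (fld7 wave_avg vqc va pair_avg)) glue2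
  refine ⟨dens_nat, fun p hp κ hκ => ⟨?_, ?_⟩⟩
  · intro h8 Ω _ P _ E hE
    filter_upwards [hp8 p κ hp.is h8 Ω P E hE.is] with ω hω
    have e : (fun M : ℕ => (reps (odds E ω) (2 * M + 2) : ℝ) / expected p M) =
        fun M : ℕ => (rep E ω M : ℝ) / mu p 0 M := by
      funext M
      rw [reps_eq, expected_eq]
    refine ⟨?_, by rw [e]; exact hω⟩
    filter_upwards [hω.eventually (lt_mem_nhds (show (0 : ℝ) < 1 by norm_num))] with M hM
    rw [← rep_pos_iff]
    intro h0
    rw [h0] at hM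
    simp at hM
  · intro h8
    obtain ⟨Ω, i1, P, i2, E, hm, hi, hω⟩ := hs7 p hp.is
    refine ⟨Ω, i1, P, i2, E, model_of (le_of_not hκ h8) hm hi, ?_⟩
    filter_upwards [hω] with ω hω
    refine hω.mono fun M hM hG => ?_
    rw [goldbach_iff] at hG
    obtain ⟨x, y, hx, hy, hxy, hs⟩ := hG
    exact hM x y hx hy hxy hs

end Pool.Agent.Results.MP_61161c_nt.OrderEight
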